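import Mathlib

/-!
# Tuza's inequality for joins of an edgeless graph with a triangle-free graph

Let `H` be a triangle-free finite graph and `k` a natural number. We prove
`τ(I_k ∨ H) ≤ 2 ν(I_k ∨ H)`.

Proof. Let `P 0, ..., P (k-1)` be pairwise edge-disjoint matchings of `H` with the largest possible
total number of edges, `F` their union, and let `D` be the set of vertices missed by at least one
of the matchings. If `u ∈ D` and `v, v' ∈ D` are two neighbours of `u` in `H - F`, a Kempe-chain
argument shows that the sets of colours missing at `u`, `v`, `v'` are pairwise disjoint. Hence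
`u` has at most `deg_F(u)` neighbours in `D` in the graph `H - F`, and at most `2 deg_F(u)` in `H`,
so `H[D]` has at most `∑_{u ∈ D} deg_F(u)` edges. The edges of `H[D]`, together with the edges
between `I_k` and the complement of `D`, meet all triangles of `I_k ∨ H` and their number is at most
`∑_u deg_F(u) = 2|F|`. The `|F|` triangles `{i} ∪ e`, for `e ∈ P i`, are edge-disjoint.
-/

set_option autoImplicit false

namespace Pool.Agent.KempeJoin.TuzaJoin

open Finset

universe u

/-- The join `G₁ ∨ G₂`: the disjoint union of `G₁` and `G₂` together with all the edges joining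
a vertex of `G₁` to a vertex of `G₂`. -/
def joinGraph {A B : Type*} (G₁ : SimpleGraph A) (G₂ : SimpleGraph B) : SimpleGraph (A ⊕ B) where
  Adj x y :=
    match x, y with
    | Sum.inl a, Sum.inl a' => G₁.Adj a a'
    | Sum.inr b, Sum.inr b' => G₂.Adj b b'
    | Sum.inl _, Sum.inr _ => True
    | Sum.inr _, Sum.inl _ => True
  symm := ⟨by
    rintro (a | b) (a' | b') h
    · exact G₁.adj_symm h
    · trivial
    · trivial
    · exact G₂.adj_symm h⟩
  loopless := ⟨by
    rintro (a | b) h
    · exact G₁.loopless.irrefl a h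
    · exact G₂.loopless.irrefl b h⟩

/-- `τ(G)`: the least size of a set of edges of `G` whose deletion leaves no triangle. -/
noncomputable def tau {W : Type*} (G : SimpleGraph W) : ℕ :=
  sInf {n : ℕ | ∃ Y : Finset (Sym2 W), (Y : Set (Sym2 W)) ⊆ G.edgeSet ∧
    (G.deleteEdges (Y : Set (Sym2 W))).CliqueFree 3 ∧ Y.card = n}

/-- `ν(G)`: the largest number of triangles of `G` that are pairwise edge-disjoint
(any two of them have at most one vertex in common). -/
noncomputable def nu {W : Type*} (G : SimpleGraph W) : ℕ :=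
  sSup {n : ℕ | ∃ T : Finset (Finset W), (∀ t ∈ T, G.IsNClique 3 t) ∧
    (T : Set (Finset W)).Pairwise (fun s t => ((s : Set W) ∩ (t : Set W)).Subsingleton) ∧
    T.card = n}

section Kempe

variable {V : Type u} [Fintype V]

open Classical in
/-- In a graph of maximum degree at most two, a component contains at most two vertices of
degree at most one. -/
lemma not_three_low (Q : SimpleGraph V) (hdeg : ∀ w, Q.degree w ≤ 2) (a b c : V)
    (hab : a ≠ b) (hac : a ≠ c) (hbc : b ≠ c)
    (ha : Q.degree a ≤ 1) (hb : Q.degree b ≤ 1) (hc : Q.degree c ≤ 1)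
    (h1 : Q.Reachable a b) (h2 : Q.Reachable a c) : False := by
  set C := Q.connectedComponentMk a with hC
  have haC : a ∈ C.supp := rfl
  have hbC : b ∈ C.supp := by
    rw [SimpleGraph.ConnectedComponent.mem_supp_iff]
    exact (SimpleGraph.ConnectedComponent.sound h1).symm
  have hcC : c ∈ C.supp := by
    rw [SimpleGraph.ConnectedComponent.mem_supp_iff]
    exact (SimpleGraph.ConnectedComponent.sound h2).symm
  let K := Q.induce C.supp
  have hK : K.Connected := C.connected_toSimpleGraph
  have hcard := hK.card_vert_le_card_edgeSet_add_one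
  have hsum := K.sum_degrees_eq_twice_card_edges
  have hle : ∀ w : C.supp, K.degree w ≤ Q.degree w := by
    intro w
    rw [← SimpleGraph.card_neighborFinset_eq_degree, ← SimpleGraph.card_neighborFinset_eq_degree]
    rw [← Finset.card_map (Function.Embedding.subtype _)]
    apply Finset.card_le_card
    intro x hx
    simp only [Finset.mem_map, SimpleGraph.mem_neighborFinset, Function.Embedding.subtype_apply] at hx
    obtain ⟨y, hy, rfl⟩ := hx
    simpa [K] using hy
  have hcard' : Fintype.card C.supp ≤ K.edgeFinset.card + 1 := by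
    rw [Nat.card_eq_fintype_card, Nat.card_eq_fintype_card] at hcard
    rw [← SimpleGraph.edgeFinset_card] at hcard
    exact hcard
  -- sum of (2 - degree) is at least 3
  let T : Finset C.supp := {⟨a, haC⟩, ⟨b, hbC⟩, ⟨c, hcC⟩}
  have hT : T.card = 3 := by
    apply Finset.card_eq_three.mpr
    exact ⟨⟨a, haC⟩, ⟨b, hbC⟩, ⟨c, hcC⟩, by simpa using hab, by simpa using hac,
      by simpa using hbc, rfl⟩
  have hlow : ∀ w ∈ T, K.degree w ≤ 1 := by
    intro w hw
    simp only [T, Finset.mem_insert, Finset.mem_singleton] at hw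
    rcases hw with rfl | rfl | rfl
    · exact (hle _).trans ha
    · exact (hle _).trans hb
    · exact (hle _).trans hc
  have hbound : ∀ w : C.supp, K.degree w + (if w ∈ T then 1 else 0) ≤ 2 := by
    intro w
    split_ifs with h
    · have := hlow w h
      omega
    · have := (hle w).trans (hdeg w)
      omega
  have hs := Finset.sum_le_sum (fun w (_ : w ∈ (Finset.univ : Finset C.supp)) => hbound w)
  rw [Finset.sum_add_distrib, hsum, Finset.sum_ite_mem, Finset.univ_inter, Finset.sum_const,
    Finset.sum_const, hT, Finset.card_univ] at hs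
  simp only [smul_eq_mul] at hs
  omega

/-- `P 0, ..., P (k-1)` are the colour classes of a proper edge colouring of a subgraph of `H`:
each of them is a matching of `H`, and no two of them share an edge. -/
def Valid (H : SimpleGraph V) {k : ℕ} (P : Fin k → SimpleGraph V) : Prop :=
  (∀ i, P i ≤ H) ∧ (∀ i u v w, (P i).Adj u v → (P i).Adj u w → v = w) ∧
    (∀ i j u v, (P i).Adj u v → (P j).Adj u v → i = j)

open Classical in
/-- Twice the number of coloured edges. -/
noncomputable def size {k : ℕ} (P : Fin k → SimpleGraph V) : ℕ :=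
  ∑ v, ∑ i, (P i).degree v

variable {H : SimpleGraph V} {k : ℕ} {P : Fin k → SimpleGraph V}

open Classical in
lemma Valid.degree_le_one (hP : Valid H P) (i : Fin k) (v : V) : (P i).degree v ≤ 1 := by
  rw [← SimpleGraph.card_neighborFinset_eq_degree, Finset.card_le_one]
  intro a ha b hb
  rw [SimpleGraph.mem_neighborFinset] at ha hb
  exact hP.2.1 i v a b ha hb

open Classical in
lemma degree_le_add (Q R S : SimpleGraph V) (h : S = Q ⊔ R) (v : V) :
    S.degree v ≤ Q.degree v + R.degree v := by
  simp only [← SimpleGraph.card_neighborFinset_eq_degree]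
  refine le_trans (Finset.card_le_card ?_) (Finset.card_union_le _ _)
  intro x hx
  rw [SimpleGraph.mem_neighborFinset] at hx
  subst h
  simpa only [SimpleGraph.mem_neighborFinset, SimpleGraph.sup_adj, Finset.mem_union] using hx

open Classical in
lemma degree_eq_zero_of_missing {Q : SimpleGraph V} {v : V} (h : ∀ w, ¬ Q.Adj v w) :
    Q.degree v = 0 := by
  rw [← SimpleGraph.card_neighborFinset_eq_degree, Finset.card_eq_zero]
  ext x
  simp [h x]

open Classical in
lemma degree_congr {Q R : SimpleGraph V} {v : V} (h : ∀ w, Q.Adj v w ↔ R.Adj v w) :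
    Q.degree v = R.degree v := by
  simp only [← SimpleGraph.card_neighborFinset_eq_degree]
  congr 1
  ext x
  simp [h x]

/-- Kempe change: exchange the colours `i` and `j` on the `(i,j)`-component of `v`. -/
lemma kempe (hP : Valid H P) (i j : Fin k) (v : V) :
    ∃ P' : Fin k → SimpleGraph V, Valid H P' ∧ size P' = size P ∧
      (∀ w, (P i ⊔ P j).Reachable v w → ∀ l x, (P' l).Adj w x ↔ (P (Equiv.swap i j l)).Adj w x) ∧
      (∀ w, ¬ (P i ⊔ P j).Reachable v w → ∀ l x, (P' l).Adj w x ↔ (P l).Adj w x) := by
  classical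
  set Q := P i ⊔ P j with hQ
  have key : ∀ l a b, (P (Equiv.swap i j l)).Adj a b → Q.Reachable v a →
      (Q.Reachable v b ∨ (P l).Adj a b ∧ Equiv.swap i j l = l) := by
    intro l a b hab hva
    by_cases hl : l = i
    · subst hl
      left
      rw [Equiv.swap_apply_left] at hab
      exact hva.trans (SimpleGraph.Adj.reachable (by rw [hQ, SimpleGraph.sup_adj]; right; exact hab))
    by_cases hl' : l = j
    · subst hl'
      left
      rw [Equiv.swap_apply_right] at hab
      exact hva.trans (SimpleGraph.Adj.reachable (by rw [hQ, SimpleGraph.sup_adj]; left; exact hab))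
    · right
      have : Equiv.swap i j l = l := Equiv.swap_apply_of_ne_of_ne hl hl'
      rw [this] at hab
      exact ⟨hab, this⟩
  have key2 : ∀ l a b, (P l).Adj a b → Q.Reachable v b →
      (Q.Reachable v a ∨ (P (Equiv.swap i j l)).Adj a b) := by
    intro l a b hab hvb
    by_cases hl : l = i
    · subst hl
      left
      exact hvb.trans (SimpleGraph.Adj.reachable
        (by rw [hQ, SimpleGraph.sup_adj]; left; exact hab.symm))
    by_cases hl' : l = j
    · subst hl'
      left
      exact hvb.trans (SimpleGraph.Adj.reachable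
        (by rw [hQ, SimpleGraph.sup_adj]; right; exact hab.symm))
    · right
      have : Equiv.swap i j l = l := Equiv.swap_apply_of_ne_of_ne hl hl'
      rw [this]
      exact hab
  let P' : Fin k → SimpleGraph V := fun l =>
    { Adj := fun a b => if Q.Reachable v a then (P (Equiv.swap i j l)).Adj a b else (P l).Adj a b
      symm := ⟨by
        intro a b hab
        by_cases ha : Q.Reachable v a
        · rw [if_pos ha] at hab
          rcases key l a b hab ha with hb | ⟨hb, hl⟩
          · rw [if_pos hb]; exact hab.symm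
          · split_ifs
            · exact hab.symm
            · exact hb.symm
        · rw [if_neg ha] at hab
          split_ifs with hb
          · rcases key2 l a b hab hb with h | h
            · exact absurd h ha
            · exact h.symm
          · exact hab.symm⟩
      loopless := ⟨by
        intro a ha
        split_ifs at ha
        · exact (SimpleGraph.irrefl _) ha
        · exact (SimpleGraph.irrefl _) ha⟩ }
  have hin : ∀ w, Q.Reachable v w → ∀ l x, (P' l).Adj w x ↔ (P (Equiv.swap i j l)).Adj w x := by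
    intro w hw l x
    show (if Q.Reachable v w then _ else _) ↔ _
    rw [if_pos hw]
  have hout : ∀ w, ¬ Q.Reachable v w → ∀ l x, (P' l).Adj w x ↔ (P l).Adj w x := by
    intro w hw l x
    show (if Q.Reachable v w then _ else _) ↔ _
    rw [if_neg hw]
  refine ⟨P', ⟨?_, ?_, ?_⟩, ?_, hin, hout⟩
  · intro l a b hab
    by_cases ha : Q.Reachable v a
    · exact hP.1 _ ((hin a ha l b).1 hab)
    · exact hP.1 _ ((hout a ha l b).1 hab)
  · intro l a b c hab hac
    by_cases ha : Q.Reachable v a
    · exact hP.2.1 _ a b c ((hin a ha l b).1 hab) ((hin a ha l c).1 hac)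
    · exact hP.2.1 _ a b c ((hout a ha l b).1 hab) ((hout a ha l c).1 hac)
  · intro l m a b hab hab'
    by_cases ha : Q.Reachable v a
    · have := hP.2.2 _ _ a b ((hin a ha l b).1 hab) ((hin a ha m b).1 hab')
      exact (Equiv.swap i j).injective this
    · exact hP.2.2 _ _ a b ((hout a ha l b).1 hab) ((hout a ha m b).1 hab')
  · unfold size
    refine Finset.sum_congr rfl fun w _ => ?_
    by_cases hw : Q.Reachable v w
    · rw [← Equiv.sum_comp (Equiv.swap i j) (fun l => (P l).degree w)]
      refine Finset.sum_congr rfl fun l _ => ?_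
      exact degree_congr (hin w hw l)
    · refine Finset.sum_congr rfl fun l _ => ?_
      exact degree_congr (hout w hw l)

/-- If a colour is missing at both ends of an uncoloured edge, then the colouring can be
extended. -/
lemma extend (hP : Valid H P) (j : Fin k) (u v : V) (huv : H.Adj u v)
    (hun : ∀ l, ¬ (P l).Adj u v) (hu : ∀ w, ¬ (P j).Adj u w) (hv : ∀ w, ¬ (P j).Adj v w) :
    ∃ P' : Fin k → SimpleGraph V, Valid H P' ∧ size P < size P' := by
  classical
  have hne : u ≠ v := huv.ne
  let P' : Fin k → SimpleGraph V := fun l => if l = j then P l ⊔ SimpleGraph.edge u v else P l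
  have hj : ∀ a b, (P' j).Adj a b ↔ (P j).Adj a b ∨ ((a = u ∧ b = v) ∨ (a = v ∧ b = u)) := by
    intro a b
    simp only [P', if_true, SimpleGraph.sup_adj, SimpleGraph.edge_adj]
    constructor
    · rintro (h | ⟨h, -⟩)
      · left; exact h
      · right
        rcases h with ⟨h1, h2⟩ | ⟨h1, h2⟩
        · left; exact ⟨by simp_all, by simp_all⟩
        · right; exact ⟨by simp_all, by simp_all⟩
    · rintro (h | h)
      · left; exact h
      · right
        rcases h with ⟨rfl, rfl⟩ | ⟨rfl, rfl⟩
        · exact ⟨by simp, hne⟩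
        · exact ⟨by simp, hne.symm⟩
  have hl : ∀ l, l ≠ j → P' l = P l := by
    intro l h
    simp only [P', if_neg h]
  have hmono : ∀ l, P l ≤ P' l := by
    intro l
    by_cases h : l = j
    · subst h
      intro a b hab
      exact (hj a b).2 (Or.inl hab)
    · rw [hl l h]
  refine ⟨P', ⟨?_, ?_, ?_⟩, ?_⟩
  · intro l
    by_cases h : l = j
    · subst h
      intro a b hab
      rcases (hj a b).1 hab with h | ⟨rfl, rfl⟩ | ⟨rfl, rfl⟩
      · exact hP.1 _ h
      · exact huv
      · exact huv.symm
    · rw [hl l h]; exact hP.1 l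
  · intro l a b c hab hac
    by_cases h : l = j
    · subst h
      rcases (hj a b).1 hab with h1 | ⟨rfl, rfl⟩ | ⟨rfl, rfl⟩
      · rcases (hj a c).1 hac with h2 | ⟨rfl, rfl⟩ | ⟨rfl, rfl⟩
        · exact hP.2.1 _ a b c h1 h2
        · exact absurd h1 (hu _)
        · exact absurd h1 (hv _)
      · rcases (hj a c).1 hac with h2 | ⟨_, rfl⟩ | ⟨h3, _⟩
        · exact absurd h2 (hu _)
        · rfl
        · exact absurd h3 hne
      · rcases (hj a c).1 hac with h2 | ⟨h3, _⟩ | ⟨_, rfl⟩
        · exact absurd h2 (hv _)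
        · exact absurd h3.symm hne
        · rfl
    · rw [hl l h] at hab hac
      exact hP.2.1 l a b c hab hac
  · intro l m a b h1 h2
    by_cases hlj : l = j
    · by_cases hmj : m = j
      · rw [hlj, hmj]
      · subst hlj
        rw [hl m hmj] at h2
        rcases (hj a b).1 h1 with h | ⟨rfl, rfl⟩ | ⟨rfl, rfl⟩
        · exact hP.2.2 _ _ a b h h2
        · exact absurd h2 (hun m)
        · exact absurd h2.symm (hun m)
    · by_cases hmj : m = j
      · subst hmj
        rw [hl l hlj] at h1
        rcases (hj a b).1 h2 with h | ⟨rfl, rfl⟩ | ⟨rfl, rfl⟩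
        · exact hP.2.2 _ _ a b h1 h
        · exact absurd h1 (hun l)
        · exact absurd h1.symm (hun l)
      · rw [hl l hlj] at h1
        rw [hl m hmj] at h2
        exact hP.2.2 _ _ a b h1 h2
  · unfold size
    have hle : ∀ w, ∑ i, (P i).degree w ≤ ∑ i, (P' i).degree w := fun w =>
      Finset.sum_le_sum fun i _ => SimpleGraph.degree_le_of_le (hmono i)
    refine Finset.sum_lt_sum (fun w _ => hle w) ⟨u, Finset.mem_univ _, ?_⟩
    refine Finset.sum_lt_sum (fun i _ => SimpleGraph.degree_le_of_le (hmono i))
      ⟨j, Finset.mem_univ _, ?_⟩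
    rw [degree_eq_zero_of_missing hu]
    rw [SimpleGraph.degree_pos_iff_exists_adj]
    exact ⟨v, (hj u v).2 (Or.inr (Or.inl ⟨rfl, rfl⟩))⟩

/-- `v` misses the colour `i`. -/
def Missing {k : ℕ} (P : Fin k → SimpleGraph V) (v : V) (i : Fin k) : Prop :=
  ∀ w, ¬ (P i).Adj v w

/-- In a maximum colouring, the sets of colours missing at the ends of an uncoloured edge are
disjoint. -/
lemma disjoint_ends (hP : Valid H P) (hmax : ∀ P' : Fin k → SimpleGraph V, Valid H P' →
    size P' ≤ size P) {u v : V} (huv : H.Adj u v) (hun : ∀ l, ¬ (P l).Adj u v) {i : Fin k}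
    (hu : Missing P u i) (hv : Missing P v i) : False := by
  obtain ⟨P', hP', hlt⟩ := extend hP i u v huv hun hu hv
  exact absurd (hmax P' hP') (not_le.mpr hlt)

open Classical in
/-- In a maximum colouring, if `u` misses a colour and `v`, `v'` are joined to `u` by uncoloured
edges, then no colour is missing at both `v` and `v'`. -/
lemma disjoint_nbrs (hP : Valid H P) (hmax : ∀ P' : Fin k → SimpleGraph V, Valid H P' →
    size P' ≤ size P) {u v v' : V} (huv : H.Adj u v) (hun : ∀ l, ¬ (P l).Adj u v)
    (huv' : H.Adj u v') (hun' : ∀ l, ¬ (P l).Adj u v') (hvv' : v ≠ v') {i j : Fin k}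
    (hu : Missing P u j) (hv : Missing P v i) (hv' : Missing P v' i) : False := by
  -- the Kempe chain argument for one of the two neighbours
  have main : ∀ x : V, H.Adj u x → (∀ l, ¬ (P l).Adj u x) → Missing P x i →
      ¬ (P i ⊔ P j).Reachable x u → False := by
    intro x hux hunx hx hnr
    obtain ⟨P', hP', hsize, hin, hout⟩ := kempe hP i j x
    refine disjoint_ends (i := j) hP' (fun P'' h => by rw [hsize]; exact hmax P'' h) hux ?_ ?_ ?_
    · intro l h
      exact hunx l ((hout u hnr l x).1 h)
    · intro w h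
      exact hu w ((hout u hnr j w).1 h)
    · intro w h
      have := (hin x (SimpleGraph.Reachable.refl x) j w).1 h
      rw [Equiv.swap_apply_right] at this
      exact hx w this
  obtain ⟨Q, hQ⟩ : ∃ Q, Q = P i ⊔ P j := ⟨_, rfl⟩
  rw [← hQ] at main
  have hQdeg : ∀ w, Q.degree w ≤ 2 := by
    intro w
    have h1 := degree_le_add (P i) (P j) Q hQ w
    have h2 := hP.degree_le_one i w
    have h3 := hP.degree_le_one j w
    omega
  have hlow : ∀ w, (Missing P w i ∨ Missing P w j) → Q.degree w ≤ 1 := by
    intro w hw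
    have h1 := degree_le_add (P i) (P j) Q hQ w
    have h2 := hP.degree_le_one i w
    have h3 := hP.degree_le_one j w
    rcases hw with hw | hw
    · have := degree_eq_zero_of_missing hw
      omega
    · have := degree_eq_zero_of_missing hw
      omega
  by_cases h1 : Q.Reachable v u
  · by_cases h2 : Q.Reachable v' u
    · exact not_three_low Q hQdeg u v v' huv.ne huv'.ne hvv'
        (hlow u (Or.inr hu)) (hlow v (Or.inl hv)) (hlow v' (Or.inl hv')) h1.symm h2.symm
    · exact main v' huv' hun' hv' h2
  · exact main v huv hun hv h1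

/-- There is a maximum colouring. -/
lemma exists_max (H : SimpleGraph V) (k : ℕ) : ∃ P : Fin k → SimpleGraph V, Valid H P ∧
    ∀ P' : Fin k → SimpleGraph V, Valid H P' → size P' ≤ size P := by
  classical
  have hfin : Finite {P : Fin k → SimpleGraph V // Valid H P} := inferInstance
  have hne : Nonempty {P : Fin k → SimpleGraph V // Valid H P} :=
    ⟨⟨fun _ => ⊥, by
      refine ⟨fun _ => bot_le, ?_, ?_⟩
      · intro i u v w h
        exact absurd h (by simp)
      · intro i j u v h
        exact absurd h (by simp)⟩⟩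
  obtain ⟨P, hP⟩ := Finite.exists_max (fun P : {P : Fin k → SimpleGraph V // Valid H P} => size P.1)
  exact ⟨P.1, P.2, fun P' hP' => hP ⟨P', hP'⟩⟩

open Classical in
/-- The key inequality: for `u` in `D`, the number of neighbours of `u` in `D` is at most twice the
number of coloured edges at `u`. -/
lemma degree_in_D (hP : Valid H P) (hmax : ∀ P' : Fin k → SimpleGraph V, Valid H P' →
    size P' ≤ size P) (u : V) (hu : ∃ i, Missing P u i) :
    (Finset.univ.filter (fun v => H.Adj u v ∧ ∃ i, Missing P v i)).card ≤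
      2 * ∑ i, (P i).degree u := by
  classical
  obtain ⟨j, hj⟩ := hu
  -- coloured neighbours
  set A : Finset V := Finset.univ.filter (fun v => ∃ l, (P l).Adj u v) with hA
  set B : Finset V := Finset.univ.filter
    (fun v => H.Adj u v ∧ (∀ l, ¬ (P l).Adj u v) ∧ ∃ i, Missing P v i) with hB
  have hsub : Finset.univ.filter (fun v => H.Adj u v ∧ ∃ i, Missing P v i) ⊆ A ∪ B := by
    intro v hv
    simp only [Finset.mem_filter, Finset.mem_univ, true_and, Finset.mem_union, hA, hB] at hv ⊢
    by_cases h : ∃ l, (P l).Adj u v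
    · left; exact h
    · right
      push Not at h
      exact ⟨hv.1, h, hv.2⟩
  have hAcard : A.card ≤ ∑ i, (P i).degree u := by
    have : A ⊆ (Finset.univ : Finset (Fin k)).biUnion (fun i => (P i).neighborFinset u) := by
      intro v hv
      simp only [hA, Finset.mem_filter, Finset.mem_univ, true_and] at hv
      obtain ⟨l, hl⟩ := hv
      simp only [Finset.mem_biUnion, Finset.mem_univ, true_and, SimpleGraph.mem_neighborFinset]
      exact ⟨l, hl⟩
    refine (Finset.card_le_card this).trans (Finset.card_biUnion_le.trans ?_)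
    refine Finset.sum_le_sum fun i _ => ?_
    rw [SimpleGraph.card_neighborFinset_eq_degree]
  have hBcard : B.card ≤ ∑ i, (P i).degree u := by
    let f : V → Fin k := fun v => if h : ∃ i, Missing P v i then h.choose else j
    have hf : ∀ v ∈ B, Missing P v (f v) := by
      intro v hv
      simp only [hB, Finset.mem_filter, Finset.mem_univ, true_and] at hv
      have h := hv.2.2
      simp only [f, dif_pos h]
      exact h.choose_spec
    let S : Finset (Fin k) := Finset.univ.filter (fun i => ¬ Missing P u i)
    have hmaps : ∀ v ∈ B, f v ∈ S := by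
      intro v hv
      have h1 := hf v hv
      simp only [hB, Finset.mem_filter, Finset.mem_univ, true_and] at hv
      simp only [S, Finset.mem_filter, Finset.mem_univ, true_and]
      intro hmu
      exact disjoint_ends hP hmax hv.1 hv.2.1 hmu h1
    have hinj : ∀ v ∈ B, ∀ v' ∈ B, f v = f v' → v = v' := by
      intro v hv v' hv' hff
      by_contra hne
      have h1 := hf v hv
      have h2 := hf v' hv'
      rw [← hff] at h2
      simp only [hB, Finset.mem_filter, Finset.mem_univ, true_and] at hv hv'
      exact disjoint_nbrs hP hmax hv.1 hv.2.1 hv'.1 hv'.2.1 hne hj h1 h2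
    have hcard : B.card ≤ S.card :=
      Finset.card_le_card_of_injOn f hmaps (fun v hv v' hv' h => hinj v hv v' hv' h)
    refine hcard.trans ?_
    rw [Finset.card_eq_sum_ones]
    refine (Finset.sum_le_sum (f := fun _ => 1) (g := fun i => (P i).degree u) ?_).trans
      (Finset.sum_le_sum_of_subset (Finset.subset_univ S))
    intro i hi
    simp only [S, Finset.mem_filter, Finset.mem_univ, true_and] at hi
    unfold Missing at hi
    push Not at hi
    exact Nat.succ_le_of_lt ((SimpleGraph.degree_pos_iff_exists_adj (P i) u).2 hi)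
  have := (Finset.card_le_card hsub).trans (Finset.card_union_le A B)
  omega

end Kempe

section Main

variable {V : Type u} [Fintype V] {H : SimpleGraph V} {k : ℕ} {P : Fin k → SimpleGraph V}

/-- The triangle of the join spanned by a vertex `i` of `I_k` and an edge `e` of `H`. -/
def tri (k : ℕ) (i : Fin k) (e : Sym2 V) : Set (Fin k ⊕ V) :=
  {x | x = Sum.inl i ∨ ∃ v ∈ e, x = Sum.inr v}

open Classical in
/-- The matchings give a family of edge-disjoint triangles. -/
lemma size_le_nu (hP : Valid H P) :
    size P ≤ 2 * nu (joinGraph (⊥ : SimpleGraph (Fin k)) H) := by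
  let f : (Σ _ : Fin k, Sym2 V) → Finset (Fin k ⊕ V) := fun x => (tri k x.1 x.2).toFinset
  have hmem : ∀ i e x, x ∈ f ⟨i, e⟩ ↔ (x = Sum.inl i ∨ ∃ v ∈ e, x = Sum.inr v) := by
    intro i e x
    show x ∈ (tri k i e).toFinset ↔ _
    rw [Set.mem_toFinset]
    exact Iff.rfl
  have hinl : ∀ i j e, (Sum.inl j : Fin k ⊕ V) ∈ f ⟨i, e⟩ ↔ j = i := by
    intro i j e
    rw [hmem]
    simp
  have hinr : ∀ i e v, (Sum.inr v : Fin k ⊕ V) ∈ f ⟨i, e⟩ ↔ v ∈ e := by
    intro i e v
    rw [hmem]
    simp
  let E : Finset (Σ _ : Fin k, Sym2 V) := Finset.univ.sigma (fun i => (P i).edgeFinset)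
  have hE : ∀ i e, (⟨i, e⟩ : Σ _ : Fin k, Sym2 V) ∈ E ↔ e ∈ (P i).edgeSet := by
    intro i e
    simp [E]
  have hfinj : ∀ x ∈ E, ∀ y ∈ E, f x = f y → x = y := by
    rintro ⟨i, e⟩ _ ⟨j, e'⟩ _ hxy
    have hij : i = j := by
      have : (Sum.inl i : Fin k ⊕ V) ∈ f ⟨j, e'⟩ := by rw [← hxy, hinl]
      rwa [hinl] at this
    subst hij
    have hee : e = e' := by
      apply Sym2.ext
      intro v
      rw [← hinr i e v, ← hinr i e' v, hxy]
    rw [hee]
  have hcard : 2 * E.card = size P := by
    rw [Finset.card_sigma, Finset.mul_sum]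
    unfold size
    rw [Finset.sum_comm]
    refine Finset.sum_congr rfl fun i _ => ?_
    rw [SimpleGraph.sum_degrees_eq_twice_card_edges]
  have hT : (E.image f).card = E.card := Finset.card_image_of_injOn (fun x hx y hy h => hfinj x hx y hy h)
  have hle : (E.image f).card ≤ nu (joinGraph (⊥ : SimpleGraph (Fin k)) H) := by
    unfold nu
    refine le_csSup ?_ ?_
    · refine ⟨Fintype.card (Finset (Fin k ⊕ V)), ?_⟩
      rintro n ⟨T, _, _, rfl⟩
      exact Finset.card_le_univ T
    · refine ⟨E.image f, ?_, ?_, rfl⟩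
      · intro t ht
        rw [Finset.mem_image] at ht
        obtain ⟨⟨i, e⟩, hx, rfl⟩ := ht
        rw [hE] at hx
        induction e using Sym2.ind with
        | _ a b =>
          rw [SimpleGraph.mem_edgeSet] at hx
          have hab := hP.1 i hx
          rw [SimpleGraph.is3Clique_iff]
          refine ⟨Sum.inl i, Sum.inr a, Sum.inr b, trivial, trivial, hab, ?_⟩
          ext x
          rw [hmem]
          simp only [Sym2.mem_iff, Finset.mem_insert, Finset.mem_singleton, exists_eq_or_imp,
            exists_eq_left]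
      · intro s hs t ht hst
        rw [Finset.coe_image] at hs ht
        obtain ⟨⟨i, e⟩, hx, rfl⟩ := hs
        obtain ⟨⟨j, e'⟩, hy, rfl⟩ := ht
        rw [Finset.mem_coe, hE] at hx hy
        -- two different triangles
        have hne : ¬ (i = j ∧ e = e') := by
          rintro ⟨rfl, rfl⟩
          exact hst rfl
        rintro x ⟨hx1, hx2⟩ y ⟨hy1, hy2⟩
        rw [Finset.mem_coe] at hx1 hx2 hy1 hy2
        by_contra hxy
        rcases x with x | x <;> rcases y with y | y
        · rw [hinl] at hx1 hy1
          exact hxy (by rw [hx1, hy1])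
        · rw [hinl] at hx1 hx2
          rw [hinr] at hy1 hy2
          have hij : i = j := by rw [← hx1, ← hx2]
          subst hij
          refine hne ⟨rfl, ?_⟩
          -- both edges are in `P i` and contain `y`
          obtain ⟨a, rfl⟩ := hy1
          obtain ⟨b, rfl⟩ := hy2
          rw [SimpleGraph.mem_edgeSet] at hx hy
          rw [hP.2.1 i y a b hx hy]
        · rw [hinl] at hy1 hy2
          rw [hinr] at hx1 hx2
          have hij : i = j := by rw [← hy1, ← hy2]
          subst hij
          refine hne ⟨rfl, ?_⟩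
          obtain ⟨a, rfl⟩ := hx1
          obtain ⟨b, rfl⟩ := hx2
          rw [SimpleGraph.mem_edgeSet] at hx hy
          rw [hP.2.1 i x a b hx hy]
        · rw [hinr] at hx1 hx2 hy1 hy2
          have hxy' : x ≠ y := fun h => hxy (by rw [h])
          have h1 : e = s(x, y) := ((Sym2.mem_and_mem_iff hxy').1 ⟨hx1, hy1⟩)
          have h2 : e' = s(x, y) := ((Sym2.mem_and_mem_iff hxy').1 ⟨hx2, hy2⟩)
          subst h1
          subst h2
          rw [SimpleGraph.mem_edgeSet] at hx hy
          exact hne ⟨hP.2.2 i j x y hx hy, rfl⟩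
  omega

open Classical in
/-- The edges between `I_k` and the complement of `D`, together with the edges of `H[D]`, meet all
the triangles of the join. -/
lemma tau_le (hH : H.CliqueFree 3) (D : Finset V) (HD : SimpleGraph V)
    (hHD : ∀ a b, HD.Adj a b ↔ H.Adj a b ∧ a ∈ D ∧ b ∈ D) :
    tau (joinGraph (⊥ : SimpleGraph (Fin k)) H) ≤ k * Dᶜ.card + HD.edgeFinset.card := by
  let Y1 : Finset (Sym2 (Fin k ⊕ V)) :=
    ((Finset.univ : Finset (Fin k)) ×ˢ Dᶜ).image (fun p => s(Sum.inl p.1, Sum.inr p.2))
  let Y2 : Finset (Sym2 (Fin k ⊕ V)) := HD.edgeFinset.image (Sym2.map Sum.inr)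
  have hY1 : ∀ i v, v ∉ D → s(Sum.inl i, Sum.inr v) ∈ Y1 := by
    intro i v hv
    simp only [Y1, Finset.mem_image, Finset.mem_product, Finset.mem_univ, Finset.mem_compl,
      true_and]
    exact ⟨(i, v), hv, rfl⟩
  have hY2 : ∀ a b, HD.Adj a b → s(Sum.inr a, Sum.inr b) ∈ Y2 := by
    intro a b hab
    simp only [Y2, Finset.mem_image, SimpleGraph.mem_edgeFinset]
    exact ⟨s(a, b), hab, rfl⟩
  have hcard : (Y1 ∪ Y2).card ≤ k * Dᶜ.card + HD.edgeFinset.card := by
    refine (Finset.card_union_le _ _).trans (add_le_add ?_ Finset.card_image_le)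
    refine Finset.card_image_le.trans ?_
    rw [Finset.card_product, Finset.card_univ, Fintype.card_fin]
  refine le_trans (Nat.sInf_le ⟨Y1 ∪ Y2, ?_, ?_, rfl⟩) hcard
  · intro x hx
    rw [Finset.mem_coe, Finset.mem_union] at hx
    rcases hx with hx | hx
    · simp only [Y1, Finset.mem_image, Finset.mem_product, Finset.mem_univ, Finset.mem_compl,
        true_and] at hx
      obtain ⟨p, _, rfl⟩ := hx
      rw [SimpleGraph.mem_edgeSet]
      trivial
    · simp only [Y2, Finset.mem_image, SimpleGraph.mem_edgeFinset] at hx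
      obtain ⟨e, he, rfl⟩ := hx
      induction e using Sym2.ind with
      | _ a b =>
        rw [SimpleGraph.mem_edgeSet, hHD] at he
        rw [Sym2.map_mk, SimpleGraph.mem_edgeSet]
        exact he.1
  · intro s hs
    rw [SimpleGraph.is3Clique_iff] at hs
    obtain ⟨a, b, c, hab, hac, hbc, -⟩ := hs
    -- no edge of the triangle is deleted
    have key : ∀ x y : Fin k ⊕ V, ((joinGraph (⊥ : SimpleGraph (Fin k)) H).deleteEdges
        ((Y1 ∪ Y2 : Finset (Sym2 (Fin k ⊕ V))) : Set (Sym2 (Fin k ⊕ V)))).Adj x y →
        (joinGraph (⊥ : SimpleGraph (Fin k)) H).Adj x y ∧ s(x, y) ∉ Y1 ∧ s(x, y) ∉ Y2 := by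
      intro x y h
      rw [SimpleGraph.deleteEdges_adj, Finset.mem_coe, Finset.mem_union, not_or] at h
      exact h
    have nope : ∀ (i : Fin k) (a b : V),
        s(Sum.inl i, Sum.inr a) ∉ Y1 → s(Sum.inl i, Sum.inr b) ∉ Y1 →
        s(Sum.inr a, Sum.inr b) ∉ Y2 → ¬ H.Adj a b := by
      intro i a b h1 h2 h3 hab
      refine h3 (hY2 a b ((hHD a b).2 ⟨hab, ?_, ?_⟩))
      · by_contra h; exact h1 (hY1 i a h)
      · by_contra h; exact h2 (hY1 i b h)
    obtain ⟨hab, hab1, hab2⟩ := key _ _ hab
    obtain ⟨hac, hac1, hac2⟩ := key _ _ hac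
    obtain ⟨hbc, hbc1, hbc2⟩ := key _ _ hbc
    rcases a with a | a <;> rcases b with b | b <;> rcases c with c | c
    · exact hab
    · exact hab
    · exact hac
    · exact nope a b c hab1 hac1 hbc2 hbc
    · exact hbc
    · rw [Sym2.eq_swap] at hab1
      exact nope b a c hab1 hbc1 hac2 hac
    · rw [Sym2.eq_swap] at hac1 hbc1
      exact nope c a b hac1 hbc1 hab2 hab
    · exact hH {a, b, c} (SimpleGraph.is3Clique_iff.2 ⟨a, b, c, hab, hac, hbc, rfl⟩)

end Main

/-- **Tuza's inequality for the joins `I_k ∨ H` with `H` triangle-free.** For every `k` and every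
finite triangle-free graph `H`, `τ(I_k ∨ H) ≤ 2 ν(I_k ∨ H)`. -/
theorem result (k : ℕ) (V : Type u) [Fintype V] (H : SimpleGraph V) (hH : H.CliqueFree 3) :
    tau (joinGraph (⊥ : SimpleGraph (Fin k)) H) ≤
      2 * nu (joinGraph (⊥ : SimpleGraph (Fin k)) H) := by
  classical
  obtain ⟨P, hP, hmax⟩ := exists_max H k
  refine le_trans ?_ (size_le_nu hP)
  let D : Finset V := Finset.univ.filter (fun v => ∃ i, Missing P v i)
  have hD : ∀ v, v ∈ D ↔ ∃ i, Missing P v i := by
    intro v
    simp [D]
  let HD : SimpleGraph V :=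
    { Adj := fun a b => H.Adj a b ∧ a ∈ D ∧ b ∈ D
      symm := ⟨fun a b h => ⟨h.1.symm, h.2.2, h.2.1⟩⟩
      loopless := ⟨fun a h => H.irrefl h.1⟩ }
  have hHD : ∀ a b, HD.Adj a b ↔ H.Adj a b ∧ a ∈ D ∧ b ∈ D := fun a b => Iff.rfl
  obtain ⟨Q, hQ⟩ : ∃ Q, Q = HD := ⟨_, rfl⟩
  have hQ' : ∀ a b, Q.Adj a b ↔ H.Adj a b ∧ a ∈ D ∧ b ∈ D := by
    intro a b; rw [hQ]
  refine (tau_le hH D Q hQ').trans ?_
  have h1 : 2 * Q.edgeFinset.card ≤ ∑ v ∈ D, 2 * ∑ i, (P i).degree v := by
    rw [← SimpleGraph.sum_degrees_eq_twice_card_edges, ← Finset.sum_subset (Finset.subset_univ D)]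
    · refine Finset.sum_le_sum fun v hv => ?_
      refine le_trans ?_ (degree_in_D hP hmax v ((hD v).1 hv))
      rw [← SimpleGraph.card_neighborFinset_eq_degree]
      refine Finset.card_le_card ?_
      intro x hx
      rw [SimpleGraph.mem_neighborFinset, hQ'] at hx
      rw [Finset.mem_filter]
      exact ⟨Finset.mem_univ _, hx.1, (hD x).1 hx.2.2⟩
    · intro v _ hv
      apply degree_eq_zero_of_missing
      intro w hw
      rw [hQ'] at hw
      exact hv hw.2.1
  have h2 : k * Dᶜ.card ≤ ∑ v ∈ Dᶜ, ∑ i, (P i).degree v := by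
    rw [mul_comm, ← smul_eq_mul, ← Finset.sum_const]
    refine Finset.sum_le_sum fun v hv => ?_
    rw [Finset.mem_compl, hD] at hv
    have : ∀ i ∈ (Finset.univ : Finset (Fin k)), 1 ≤ (P i).degree v := by
      intro i _
      have hi : ¬ Missing P v i := fun h => hv ⟨i, h⟩
      unfold Missing at hi
      push Not at hi
      exact Nat.succ_le_of_lt ((SimpleGraph.degree_pos_iff_exists_adj (P i) v).2 hi)
    calc k = ∑ _i : Fin k, 1 := by simp
      _ ≤ ∑ i, (P i).degree v := Finset.sum_le_sum this
  have h3 : size P = ∑ v ∈ D, ∑ i, (P i).degree v + ∑ v ∈ Dᶜ, ∑ i, (P i).degree v := by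
    unfold size
    rw [Finset.sum_add_sum_compl]
  rw [← Finset.mul_sum] at h1
  omega

end Pool.Agent.KempeJoin.TuzaJoin
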